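import Pool.Agent.X298.BS.Main

/-!
# The `p`-part of the Birch–Swinnerton-Dyer formula in analytic rank one: one integer nearest to a sum over the good primes

Let `K` be an imaginary quadratic field (the theorem is for any number field), `E : y² = x³ + A x + B` an elliptic curve with
`A, B ∈ 𝓞_K` (in the problem they are integers), `S` a set of primes of `K` containing the bad ones, `α_v, β_v` the Frobenius
eigenvalues at `v ∉ S`, given by the numbers of points modulo `v`. For `γ > π / 2`, `T > 0` consider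

  `S(T) = ∑_{v ∉ S} ∑_{k ≥ 1} (α_v^k + β_v^k) q_v^{-k} e^{iγu} / (k Γ(1 + u))`,   `u = k log q_v / T`,

and `X(T) = c² √|D_K| Re (T e^{S(T) - Λ(γ)} / ε) / (Ω R)`, where `ε` is the product of the Euler factors at `1` of the places in `S`
(so that `L_S'(E/K, 1) = ε L'(E/K, 1)`), `Ω` the period, `R` the regulator, `c` the Manin constant.

Suppose that `L_S(E/K, s)` has a zero of order one at `s = 1` (and is meromorphic on `[1, 3/2]`). The Gross–Zagier formula says
`√|D_K| L'(E/K, 1) = Ω ⟨z_K, z_K⟩`, `c z_K = y_K ∈ E(K)`; as `y_K` is `m` times a generator of `E(K)` modulo torsion, for an integer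
`m`, this means `c² √|D_K| L'(E/K, 1) = Ω R m²`. We show:

* `S(T)` converges absolutely, and `X(T) = m² + O(1/T)`; so **for all large `T` the integer nearest to `X(T)` is the square `m²`**
  of the index of the Heegner point;
* for every prime `p`: the identity `(*)` (the two rational numbers `√|D_K| L'(E/K, 1) / (Ω R)` and
  `q = Tam · #Sha / (#E(K)_tors)²` have the same `p`-adic valuation) holds **if and only if the integer nearest to `X(T)` has the
  `p`-adic valuation of `c² q` for arbitrarily large `T`**, if and only if this is so for all large `T`;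
* the identities for all odd primes `p` together hold if and only if for arbitrarily large `T` the nearest integer has the valuations of
  `c² q` at all odd primes; and the full formula `√|D_K| L'(E/K, 1) / (Ω R) = q` holds if and only if the nearest integer is `c² q`
  for arbitrarily large `T`.

There is no hypothesis on the other zeros, and the sums involve the numbers of points modulo the good primes only.
-/

set_option autoImplicit false

open Filter Topology
open IsDedekindDomain NumberField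

namespace Pool.Agent.Results.MP_23455a_nt.NearestSquare

open Pool.Agent.X298.ST Pool.Agent.X298.EC Pool.Agent.X298.BS

theorem result {K : Type} [Field K] [NumberField K] (S : Set (HeightOneSpectrum (𝓞 K))) (A B : 𝓞 K)
    (α β : Places S → ℂ) (hE : IsFrobenius A B α β) (Λ : ℂ → ℂ) (hΛ : IsLS α β Λ)
    (hord : meromorphicOrderAt Λ 1 = 1) (ε : ℂ) (hε : ε ≠ 0) (L' Ω R : ℝ) (hΩ : 0 < Ω) (hR : 0 < R)
    (hL : meromorphicTrailingCoeffAt Λ 1 = ε * L') (c m : ℤ) (hc : c ≠ 0)
    (hGZ : (c : ℝ) ^ 2 * (Real.sqrt |(discr K : ℝ)| * L') = Ω * R * (m : ℝ) ^ 2)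
    (γ : ℝ) (hγ : Real.pi / 2 < γ) :
    (∀ T : ℝ, 0 < T → Summable fun x => ‖eTerm α β γ T x‖) ∧
    (∃ C : ℝ, ∀ᶠ T : ℝ in atTop, |square α β c ε Ω R γ T - (m : ℝ) ^ 2| ≤ C / T) ∧
    (∀ᶠ T : ℝ in atTop, round (square α β c ε Ω R γ T) = m ^ 2) ∧
    (∀ (p : ℕ) [Fact p.Prime] (q : ℚ), q ≠ 0 →
      (SameVal p (Real.sqrt |(discr K : ℝ)| * L' / (Ω * R)) q ↔ ∀ᶠ T : ℝ in atTop,
        (padicValInt p (round (square α β c ε Ω R γ T)) : ℤ) = padicValRat p (c ^ 2 * q)) ∧
      (SameVal p (Real.sqrt |(discr K : ℝ)| * L' / (Ω * R)) q ↔ ∃ᶠ T : ℝ in atTop,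
        (padicValInt p (round (square α β c ε Ω R γ T)) : ℤ) = padicValRat p (c ^ 2 * q))) ∧
    (∀ q : ℚ, q ≠ 0 →
      ((∀ p : ℕ, p.Prime → p ≠ 2 → SameVal p (Real.sqrt |(discr K : ℝ)| * L' / (Ω * R)) q) ↔
        ∃ᶠ T : ℝ in atTop, ∀ p : ℕ, p.Prime → p ≠ 2 →
          (padicValInt p (round (square α β c ε Ω R γ T)) : ℤ) = padicValRat p (c ^ 2 * q))) ∧
    (∀ q : ℚ, Real.sqrt |(discr K : ℝ)| * L' / (Ω * R) = q ↔
      ∃ᶠ T : ℝ in atTop, ((round (square α β c ε Ω R γ T) : ℤ) : ℚ) = c ^ 2 * q) := by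
  obtain ⟨h1, h2⟩ := near hE hΛ hord hγ hε hΩ hR hL hGZ
  have hcR : (c : ℝ) ≠ 0 := by exact_mod_cast hc
  have hΩR : Ω * R ≠ 0 := by positivity
  have hx : (c : ℝ) ^ 2 * (Real.sqrt |(discr K : ℝ)| * L' / (Ω * R)) = (m : ℝ) ^ 2 := by
    rw [← mul_div_assoc, hGZ]
    field_simp
  have hm : m ≠ 0 := by
    intro h0
    obtain ⟨k, r₀, -, hk, -⟩ := e_asy hE hΛ hγ
    have hL0 : L' ≠ 0 := by
      intro h
      rw [hL, h] at hk
      simp only [Complex.ofReal_zero, mul_zero] at hk
      exact Complex.exp_ne_zero r₀ hk.symm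
    have hD : Real.sqrt |(discr K : ℝ)| ≠ 0 := by
      have h3 : (discr K : ℝ) ≠ 0 := by exact_mod_cast NumberField.discr_ne_zero K
      exact (Real.sqrt_pos.mpr (abs_pos.mpr h3)).ne'
    rw [h0] at hGZ
    simp only [Int.cast_zero, ne_eq, OfNat.ofNat_ne_zero, not_false_eq_true, zero_pow, mul_zero] at hGZ
    exact (mul_ne_zero (pow_ne_zero 2 hcR) (mul_ne_zero hD hL0)) hGZ
  refine ⟨fun T hT => e_summable hE γ hT, h1, h2, fun p _ q hq => sameVal_iff hc hm hx h2 p hq, ?_, ?_⟩
  · intro q hq
    constructor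
    · intro h
      refine Filter.Eventually.frequently ?_
      filter_upwards [h2] with T hT p hp hp2
      have : Fact p.Prime := ⟨hp⟩
      obtain ⟨T', h3, h4⟩ := (((sameVal_iff hc hm hx h2 p hq).1.mp (h p hp hp2)).and h2).exists
      rw [hT, ← h4]
      exact h3
    · intro h p hp hp2
      have : Fact p.Prime := ⟨hp⟩
      exact (sameVal_iff hc hm hx h2 p hq).2.mpr (h.mono fun T hT => hT p hp hp2)
  · intro q
    constructor
    · intro h
      refine Filter.Eventually.frequently ?_
      filter_upwards [h2] with T hT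
      rw [hT]
      rw [h] at hx
      have : ((m ^ 2 : ℤ) : ℝ) = ((c ^ 2 * q : ℚ) : ℝ) := by
        push_cast
        exact hx.symm
      exact_mod_cast this
    · intro h
      obtain ⟨T, h3, h4⟩ := (h.and_eventually h2).exists
      rw [h4] at h3
      have h5 : (m : ℝ) ^ 2 = (c : ℝ) ^ 2 * (q : ℝ) := by
        have := congrArg (fun t : ℚ => (t : ℝ)) h3
        push_cast at this
        exact this
      rw [← hx] at h5
      exact mul_left_cancel₀ (pow_ne_zero 2 hcR) h5

end Pool.Agent.Results.MP_23455a_nt.NearestSquare
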