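import Pool.Agent.X242.UW7
import Pool.Agent.X242.DR10

/-!
# Elliptic curves of analytic rank one: the Heegner index from one universal rational combination of coefficients

Let `E/ℚ` and `K` be as in the problem and `L(E/K, s) = ∑ b_n n^{-s}`, with integers `b_n`. By the formula of Gross and Zagier
`c² √|D| L'(E/K, 1) = Ω R m²` with nonzero integers `c`, `m` (`c` the Manin constant times the index of a generator modulo
torsion as needed, `m` the multiple of the generator), `Ω` the period and `R` the regulator.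

Fix `γ > π/2` and rational numbers `ρ_N(n)`, for every `N` almost all of them zero, with
`|ρ_N(n) + Re (N e^{iγ log n / N} / ((γ_E + iγ) Γ(1 + log n / N)))| ≤ 1 / (N n²)` (`γ_E` Euler's constant). They exist and do not
depend on `E` and `K`. Put `x_N = ∑_n ρ_N(n) b_n / n`, a rational number, a finite rational combination of the `b_n`.

1. `x_N = L'(E/K, 1) + O(1/N)`: for all `E`, `K` one and the same rational linear combination of the coefficients.
2. `c² √|D| x_N / (Ω R) = m² + O(1/N)`, and the nearest integer `z_N` is `m²` for all large `N`.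
3. For a prime `p` and a rational number `q ≠ 0` (`q = Tam #Ш / #tors²` in the problem): the rational number
   `√|D| L'(E/K, 1) / (Ω R) = m² / c²` has the same `p`-adic valuation as `q` (this is `(*)`) if and only if
   `ord_p z_N = ord_p (c² q)` for all large `N`, if and only if this holds for arbitrarily large `N`.

Assumed is the continuation: absolute convergence for `Re s > 2`, meromorphy at the points of `[1, 2]`, holomorphy at `1`
and `L(1) = 0` (known for `L(E/K, s)`); nothing is assumed about zeros, conductor or functional equation.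
-/

set_option autoImplicit false

open Filter Topology Asymptotics

namespace Pool.Agent.Results.MP_23455a_nt.RationalCombinations

open Pool.Agent.X242.DR

/-- `Λ` is the continuation of `∑ b_n n^{-s}`, with a zero at `1` and the derivative `l` there. -/
structure IsData (b : ℕ → ℤ) (Λ : ℂ → ℂ) (l : ℝ) : Prop where
  zero : b 0 = 0
  summable : ∀ s : ℂ, 2 < s.re → LSeriesSummable (fun n => (b n : ℂ)) s
  eq : ∀ s : ℂ, 2 < s.re → Λ s = LSeries (fun n => (b n : ℂ)) s
  mero : ∀ x : ℝ, 1 ≤ x → x ≤ 2 → MeromorphicAt Λ (x : ℂ)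
  an : AnalyticAt ℂ Λ 1
  vanish : Λ 1 = 0
  der : deriv Λ 1 = l

/-- `x_N = ∑ ρ_N(n) b_n / n`, for `ρ = ρ_N` -/
noncomputable def approx (b : ℕ → ℤ) (ρ : ℕ →₀ ℚ) : ℚ := comb ρ fun n => (b n : ℚ) / n

/-- **The law.** -/
theorem law {b : ℕ → ℤ} {Λ : ℂ → ℂ} {l : ℝ} (h : IsData b Λ l) {γ : ℝ}
    (hγ : Real.pi / 2 < γ) {ρ : ℕ → ℕ →₀ ℚ} (hρ : IsRational 1 γ ρ) :
    (fun N : ℕ => (approx b (ρ N) : ℝ) - l) =O[atTop] (fun N : ℕ => 1 / (N : ℝ)) := by
  set a : ℕ → ℂ := fun n => (b n : ℂ) / n with ha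
  have hterm : ∀ (s : ℂ) (n : ℕ), LSeries.term a s n =
      LSeries.term (fun n => (b n : ℂ)) (s + 1) n := by
    intro s n
    rcases Nat.eq_zero_or_pos n with rfl | hn
    · rw [LSeries.term_zero, LSeries.term_zero]
    · have hn0 : (n : ℂ) ≠ 0 := by exact_mod_cast hn.ne'
      rw [LSeries.term_of_ne_zero hn.ne', LSeries.term_of_ne_zero hn.ne', Complex.cpow_add _ _ hn0,
        Complex.cpow_one, ha]
      simp only
      rw [div_div, mul_comm ((n : ℂ) ^ s)]
  have hre : ∀ s : ℂ, 1 < s.re → 2 < (s + 1).re := by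
    intro s hs1
    rw [Complex.add_re, Complex.one_re]
    linarith
  have hS : IsSeries a (fun s => Λ (s + 1)) := by
    refine ⟨fun σ hσ => ?_, fun s hs1 => ?_, fun x hx0 hx1 => ?_⟩
    · exact (summable_congr fun n => hterm _ n).2 (h.summable ((σ : ℂ) + 1) (hre _ (by simpa using hσ)))
    · show Λ (s + 1) = LSeries a s
      rw [h.eq _ (hre s hs1)]
      unfold LSeries
      exact tsum_congr fun n => (hterm s n).symm
    · have h1 := h.mero (x + 1) (by linarith) (by linarith)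
      have e : (((x + 1 : ℝ)) : ℂ) = (x : ℂ) + 1 := by push_cast; ring
      rw [e] at h1
      have h2 : AnalyticAt ℂ (fun s : ℂ => s + 1) (x : ℂ) := by fun_prop
      exact MeromorphicAt.comp_analyticAt (g := fun s : ℂ => s + 1) h1 h2
  have hA : AnalyticAt ℂ (fun s : ℂ => Λ (s + 1)) 0 := by
    have h2 : AnalyticAt ℂ (fun s : ℂ => s + 1) (0 : ℂ) := by fun_prop
    exact AnalyticAt.comp_of_eq (f := fun s : ℂ => s + 1) h.an h2 (by rw [zero_add])
  have hder : HasDerivAt (fun s : ℂ => Λ (s + 1)) (l : ℂ) 0 := by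
    have h1 : HasDerivAt Λ (l : ℂ) ((0 : ℂ) + 1) := by
      rw [zero_add, ← h.der]
      exact h.an.differentiableAt.hasDerivAt
    exact h1.comp_add_const 0 1
  have hθ : Tendsto (fun s : ℂ => (fun s : ℂ => Λ (s + 1)) s / s ^ 1) (𝓝[≠] 0) (𝓝 (l : ℂ)) := by
    have h1 := hasDerivAt_iff_tendsto_slope.1 hder
    refine h1.congr' ?_
    filter_upwards [self_mem_nhdsWithin] with s hs
    rw [slope_def_field, zero_add, h.vanish, sub_zero, sub_zero, pow_one]
  have h1 := hS.universal (by simp [ha, h.zero]) 1 (l : ℂ) hγ (Ck_one_ne γ)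
    (bigO_of_lim hA hθ) hρ
  have e : ∀ N : ℕ, comb (ρ N) a = ((approx b (ρ N) : ℝ) : ℂ) := by
    intro N
    have e1 : a = fun n => (Rat.castHom ℂ) ((b n : ℚ) / n) := by
      funext n
      rw [ha]
      simp
    rw [e1, comb_hom (Rat.castHom ℂ) (ρ N)]
    simp [approx]
  simp only [e] at h1
  obtain ⟨B, hB⟩ := h1.bound
  refine IsBigO.of_bound B ?_
  filter_upwards [hB] with N hN
  rw [← Complex.norm_real]
  push_cast
  exact hN

/-- **The Heegner index from one universal rational combination of coefficients.** -/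
theorem result :
    -- 0. the weights exist
    (∀ γ : ℝ, Ck 1 γ = -(Real.eulerMascheroniConstant + γ * Complex.I) ∧ ∃ ρ, IsRational 1 γ ρ) ∧
    ∀ γ : ℝ, Real.pi / 2 < γ → ∀ ρ : ℕ → ℕ →₀ ℚ, IsRational 1 γ ρ →
    ∀ (b : ℕ → ℤ) (Λ : ℂ → ℂ) (l : ℝ), IsData b Λ l →
    -- 1. the derivative
    (fun N : ℕ => (approx b (ρ N) : ℝ) - l) =O[atTop] (fun N : ℕ => 1 / (N : ℝ)) ∧
    ∀ (D Ω R : ℝ) (c m : ℤ), 0 < Ω → 0 < R → c ≠ 0 → m ≠ 0 →
      (c : ℝ) ^ 2 * Real.sqrt D * l = Ω * R * (m : ℝ) ^ 2 →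
    -- 2. the square
    (fun N : ℕ => (c : ℝ) ^ 2 * Real.sqrt D * (approx b (ρ N) : ℝ) / (Ω * R) - (m : ℝ) ^ 2) =O[atTop]
      (fun N : ℕ => 1 / (N : ℝ)) ∧
    (∀ᶠ N : ℕ in atTop, round ((c : ℝ) ^ 2 * Real.sqrt D * (approx b (ρ N) : ℝ) / (Ω * R)) = m ^ 2) ∧
    -- 3. the `p`-part
    Real.sqrt D * l / (Ω * R) = (((m : ℚ) ^ 2 / (c : ℚ) ^ 2 : ℚ) : ℝ) ∧
    ∀ (p : ℕ) (_ : Fact p.Prime) (q : ℚ), q ≠ 0 →
      (padicValRat p ((m : ℚ) ^ 2 / (c : ℚ) ^ 2) = padicValRat p q ↔
        ∀ᶠ N : ℕ in atTop, padicValRat p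
          (round ((c : ℝ) ^ 2 * Real.sqrt D * (approx b (ρ N) : ℝ) / (Ω * R)) : ℚ) =
            padicValRat p ((c : ℚ) ^ 2 * q)) ∧
      (padicValRat p ((m : ℚ) ^ 2 / (c : ℚ) ^ 2) = padicValRat p q ↔
        ∃ᶠ N : ℕ in atTop, padicValRat p
          (round ((c : ℝ) ^ 2 * Real.sqrt D * (approx b (ρ N) : ℝ) / (Ω * R)) : ℚ) =
            padicValRat p ((c : ℚ) ^ 2 * q)) := by
  refine ⟨fun γ => ⟨Ck_one γ, exists_rational 1 γ⟩, ?_⟩
  intro γ hγ ρ hρ b Λ l h
  have h1 := law h hγ hρ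
  refine ⟨h1, fun D Ω R c m hΩ hR hc hm hGZ => ?_⟩
  have hΩR : Ω * R ≠ 0 := (mul_pos hΩ hR).ne'
  have h2 : (fun N : ℕ => (c : ℝ) ^ 2 * Real.sqrt D * (approx b (ρ N) : ℝ) / (Ω * R) - (m : ℝ) ^ 2)
      =O[atTop] (fun N : ℕ => 1 / (N : ℝ)) := by
    refine (h1.const_mul_left ((c : ℝ) ^ 2 * Real.sqrt D / (Ω * R))).congr_left fun N => ?_
    have e : (m : ℝ) ^ 2 = (c : ℝ) ^ 2 * Real.sqrt D * l / (Ω * R) := by
      rw [hGZ]
      field_simp
    rw [e]
    ring
  have h3 : ∀ᶠ N : ℕ in atTop,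
      round ((c : ℝ) ^ 2 * Real.sqrt D * (approx b (ρ N) : ℝ) / (Ω * R)) = m ^ 2 := by
    have h4 := (h2.trans_tendsto tendsto_one_div_atTop_nhds_zero_nat).norm
    rw [norm_zero] at h4
    filter_upwards [h4.eventually_lt_const (by norm_num : (0 : ℝ) < 1 / 2)] with N hN
    rw [Real.norm_eq_abs, abs_lt] at hN
    rw [round_eq, Int.floor_eq_iff]
    push_cast
    constructor <;> linarith [hN.1, hN.2]
  refine ⟨h2, h3, ?_, fun p hp q hq => ?_⟩
  · have hc0 : (c : ℝ) ≠ 0 := by exact_mod_cast hc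
    push_cast
    rw [div_eq_div_iff hΩR (pow_ne_zero 2 hc0)]
    linear_combination hGZ
  · have hc0 : (c : ℚ) ^ 2 ≠ 0 := pow_ne_zero 2 (by exact_mod_cast hc)
    have hm0 : (m : ℚ) ^ 2 ≠ 0 := pow_ne_zero 2 (by exact_mod_cast hm)
    have h4 : padicValRat p ((m : ℚ) ^ 2 / (c : ℚ) ^ 2) = padicValRat p q ↔
        padicValRat p (((m ^ 2 : ℤ)) : ℚ) = padicValRat p ((c : ℚ) ^ 2 * q) := by
      rw [padicValRat.div hm0 hc0, padicValRat.mul hc0 hq]
      push_cast
      constructor <;> intro h5 <;> linarith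
    have h5 : ∀ᶠ N : ℕ in atTop, (padicValRat p
          (round ((c : ℝ) ^ 2 * Real.sqrt D * (approx b (ρ N) : ℝ) / (Ω * R)) : ℚ) =
            padicValRat p ((c : ℚ) ^ 2 * q) ↔
        padicValRat p ((m : ℚ) ^ 2 / (c : ℚ) ^ 2) = padicValRat p q) := by
      filter_upwards [h3] with N hN
      rw [hN, h4]
    constructor
    · constructor
      · intro h6
        filter_upwards [h5] with N hN
        exact hN.2 h6
      · intro h6
        obtain ⟨N, hN1, hN2⟩ := (h6.and h5).exists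
        exact hN2.1 hN1
    · constructor
      · intro h6
        refine Eventually.frequently ?_
        filter_upwards [h5] with N hN
        exact hN.2 h6
      · intro h6
        obtain ⟨N, hN1, hN2⟩ := (h6.and_eventually h5).exists
        exact hN2.1 hN1

end Pool.Agent.Results.MP_23455a_nt.RationalCombinations
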